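import Mathlib
import Pool.Agent.Y859.SF.Stm

/-!
# Project SF, job F34: from sets of factorials to blocks; integers that are not squarefree
-/

set_option autoImplicit false

namespace Pool.Agent.Y235.SF

open Finset Pool.Agent.Y859.SF

theorem l1 (T : Finset ℕ) (n : ℕ) (hc : T.card ≤ 1) (h : ∀ a ∈ T, a ≤ n) :
    ∃ y : ℕ, y ≤ n ∧ ∏ a ∈ T, a.factorial = y.factorial := by
  rcases T.eq_empty_or_nonempty with hT | hT
  · exact ⟨0, Nat.zero_le _, by simp [hT]⟩
  · have h1 : T.card = 1 := le_antisymm hc (Finset.card_pos.mpr hT)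
    obtain ⟨a, ha⟩ := Finset.card_eq_one.mp h1
    exact ⟨a, h a (by simp [ha]), by simp [ha]⟩

theorem l2 (T : Finset ℕ) (n : ℕ) (hc : T.card ≤ 2) (h : ∀ a ∈ T, a ≤ n) :
    ∃ b y : ℕ, y ≤ b ∧ b ≤ n ∧ ∏ a ∈ T, a.factorial = b.factorial * y.factorial := by
  rcases T.eq_empty_or_nonempty with hT | hT
  · exact ⟨0, 0, le_rfl, Nat.zero_le _, by simp [hT]⟩
  · have hb := T.max'_mem hT
    obtain ⟨y, hy, hp⟩ := l1 (T.erase (T.max' hT)) (T.max' hT)
      (by rw [Finset.card_erase_of_mem hb]; omega)
      (fun a ha => T.le_max' a (Finset.mem_of_mem_erase ha))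
    refine ⟨T.max' hT, y, hy, h _ hb, ?_⟩
    rw [← Finset.mul_prod_erase T _ hb, hp]

theorem l3 (T : Finset ℕ) (n : ℕ) (hc : T.card ≤ 3) (h : ∀ a ∈ T, a ≤ n) :
    ∃ b y y' : ℕ, y' ≤ y ∧ y ≤ b ∧ b ≤ n ∧
      ∏ a ∈ T, a.factorial = b.factorial * (y.factorial * y'.factorial) := by
  rcases T.eq_empty_or_nonempty with hT | hT
  · exact ⟨0, 0, 0, le_rfl, le_rfl, Nat.zero_le _, by simp [hT]⟩
  · have hb := T.max'_mem hT
    obtain ⟨y, y', hy', hy, hp⟩ := l2 (T.erase (T.max' hT)) (T.max' hT)
      (by rw [Finset.card_erase_of_mem hb]; omega)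
      (fun a ha => T.le_max' a (Finset.mem_of_mem_erase ha))
    refine ⟨T.max' hT, y, y', hy', hy, h _ hb, ?_⟩
    rw [← Finset.mul_prod_erase T _ hb, hp]

theorem t_F4 : S_F4 := by
  rintro m hm ⟨s, _, hs, hms, hle, hsq⟩
  obtain ⟨b, y, y', h1, h2, h3, h4⟩ := l3 (s.erase m) (m - 1)
    (by rw [Finset.card_erase_of_mem hms]; omega)
    (fun a ha => by
      have h5 := (hle a (Finset.mem_of_mem_erase ha)).2
      have h6 := Finset.ne_of_mem_erase ha
      omega)
  refine ⟨b, y, y', h1, h2, by omega, ?_⟩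
  rw [← Finset.mul_prod_erase s _ hms, h4] at hsq
  convert hsq using 1
  ring

theorem t_F3 : S_F3 := by
  rintro m hm ⟨s, _, hs, hms, hle, hsq⟩
  obtain ⟨b, y, h1, h3, h4⟩ := l2 (s.erase m) (m - 1)
    (by rw [Finset.card_erase_of_mem hms]; omega)
    (fun a ha => by
      have h5 := (hle a (Finset.mem_of_mem_erase ha)).2
      have h6 := Finset.ne_of_mem_erase ha
      omega)
  refine ⟨b, y, Nat.zero_le _, h1, by omega, ?_⟩
  rw [← Finset.mul_prod_erase s _ hms, h4] at hsq
  convert hsq using 1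
  simp [mul_assoc]

theorem t_NSF : S_NSF := by
  intro m hm hns
  obtain ⟨a, z, hz, ha⟩ := Nat.sq_mul_squarefree m
  have ha0 : 1 ≤ a := by
    rcases Nat.eq_zero_or_pos a with h | h
    · subst h
      simp at hz
      omega
    · exact h
  have hz0 : z ≠ 0 := by
    rintro rfl
    simp at hz
    omega
  have hz1 : z ≠ 1 := by
    rintro rfl
    simp at hz
    subst hz
    exact hns ha
  have hz2 : 2 ≤ z := by omega
  have h4 : 4 * a ≤ m := by
    rw [← hz]
    exact Nat.mul_le_mul_right a (by nlinarith)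
  have hmf : m * (m - 1).factorial = m.factorial := Nat.mul_factorial_pred (by omega)
  have haf : a * (a - 1).factorial = a.factorial := Nat.mul_factorial_pred (by omega)
  rcases Nat.lt_or_ge a 2 with h | h
  · have ha1 : a = 1 := by omega
    refine ⟨{m, m - 1}, ?_, ?_, ?_, ?_, ?_⟩
    · rw [Finset.card_pair (by omega)]; omega
    · rw [Finset.card_pair (by omega)]; omega
    · simp
    · intro x hx
      simp only [Finset.mem_insert, Finset.mem_singleton] at hx
      omega
    · rw [Finset.prod_pair (by omega), ← hmf]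
      refine ⟨z * (m - 1).factorial, ?_⟩
      have h5 : m = z ^ 2 := by rw [← hz, ha1, mul_one]
      calc m * (m - 1).factorial * (m - 1).factorial
          = z ^ 2 * (m - 1).factorial * (m - 1).factorial := by rw [← h5]
        _ = _ := by ring
  · refine ⟨{m, m - 1, a, a - 1}, ?_, ?_, ?_, ?_, ?_⟩
    · exact Finset.card_pos.mpr ⟨m, by simp⟩
    · exact Finset.card_le_four
    · simp
    · intro x hx
      simp only [Finset.mem_insert, Finset.mem_singleton] at hx
      omega
    · rw [Finset.prod_insert, Finset.prod_insert, Finset.prod_pair (by omega), ← hmf, ← haf]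
      · refine ⟨z * a * (m - 1).factorial * (a - 1).factorial, ?_⟩
        calc m * (m - 1).factorial * ((m - 1).factorial * (a * (a - 1).factorial *
              (a - 1).factorial))
            = (z ^ 2 * a) * (m - 1).factorial * ((m - 1).factorial * (a * (a - 1).factorial *
              (a - 1).factorial)) := by rw [hz]
          _ = _ := by ring
      · simp only [Finset.mem_insert, Finset.mem_singleton]
        omega
      · simp only [Finset.mem_insert, Finset.mem_singleton]
        omega

end Pool.Agent.Y235.SF
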