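import Mathlib
import Pool.Agent.Y859.SF.Stm

/-!
# Project SF, job WIN: the window of one representation
-/

set_option autoImplicit false

namespace Pool.Agent.Y235.SF

open Finset Pool.Agent.Y859.SF

theorem cnt_le (v e J M : ℕ) (hv : 5 ≤ v) (hc : v.Coprime 6) :
    (((Ioc M (M + J)).filter (fun k => v ∣ 6 * k + e)).card : ℝ) ≤ (J : ℝ) / 5 + 1 := by
  have hv0 : 0 < v := by omega
  have hvR : (0 : ℝ) < v := by exact_mod_cast hv0
  have hJ5 : (J : ℝ) / v ≤ (J : ℝ) / 5 := by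
    apply div_le_div_of_nonneg_left (Nat.cast_nonneg _) (by norm_num)
    exact_mod_cast hv
  rcases Finset.eq_empty_or_nonempty ((Ioc M (M + J)).filter (fun k => v ∣ 6 * k + e)) with h | h
  · rw [h]
    simp
    positivity
  · obtain ⟨k₀, hk₀⟩ := h
    rw [Finset.mem_filter] at hk₀
    have hsub : (Ioc M (M + J)).filter (fun k => v ∣ 6 * k + e) ⊆
        (Ioc M (M + J)).filter (fun k => k ≡ k₀ [MOD v]) := by
      intro k hk
      rw [Finset.mem_filter] at hk ⊢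
      refine ⟨hk.1, ?_⟩
      have h1 : 6 * k + e ≡ 6 * k₀ + e [MOD v] :=
        ((Nat.modEq_zero_iff_dvd).mpr hk.2).trans ((Nat.modEq_zero_iff_dvd).mpr hk₀.2).symm
      have h2 : 6 * k ≡ 6 * k₀ [MOD v] := Nat.ModEq.add_right_cancel' e h1
      exact Nat.ModEq.cancel_left_of_coprime hc h2
    have h1 := Finset.card_le_card hsub
    have h2 := Nat.Ioc_filter_modEq_card M (M + J) hv0 k₀
    have h3 : (((Ioc M (M + J)).filter (fun k => k ≡ k₀ [MOD v])).card : ℝ) ≤ (J : ℝ) / v + 1 := by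
      have h4 : ((((Ioc M (M + J)).filter (fun k => k ≡ k₀ [MOD v])).card : ℤ) : ℝ) ≤
          (J : ℝ) / v + 1 := by
        rw [h2]
        push_cast
        apply max_le _ (by positivity)
        have h5 := Int.floor_le ((((M + J : ℕ) : ℚ) - (k₀ : ℚ)) / (v : ℚ))
        have h6 := Int.lt_floor_add_one (((M : ℚ) - (k₀ : ℚ)) / (v : ℚ))
        have h7 : ((((M + J : ℕ) : ℚ) - (k₀ : ℚ)) / (v : ℚ)) = ((M : ℚ) - (k₀ : ℚ)) / (v : ℚ) +
            (J : ℚ) / v := by
          push_cast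
          ring
        have h8 : ((⌊(((M + J : ℕ) : ℚ) - (k₀ : ℚ)) / (v : ℚ)⌋ : ℤ) : ℚ) -
            ((⌊((M : ℚ) - (k₀ : ℚ)) / (v : ℚ)⌋ : ℤ) : ℚ) ≤ (J : ℚ) / v + 1 := by linarith
        have h9 : (((((⌊(((M + J : ℕ) : ℚ) - (k₀ : ℚ)) / (v : ℚ)⌋ : ℤ) : ℚ) -
            ((⌊((M : ℚ) - (k₀ : ℚ)) / (v : ℚ)⌋ : ℤ) : ℚ)) : ℚ) : ℝ) ≤
            (((J : ℚ) / v + 1 : ℚ) : ℝ) := by exact_mod_cast h8
        push_cast at h9
        push_cast
        exact h9
      exact_mod_cast h4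
    have h10 : (((Ioc M (M + J)).filter (fun k => v ∣ 6 * k + e)).card : ℝ) ≤
        (((Ioc M (M + J)).filter (fun k => k ≡ k₀ [MOD v])).card : ℝ) := by exact_mod_cast h1
    linarith

theorem t_WIN (hf : S_FRA) (hr : S_REPF) : S_WIN := by
  classical
  intro m b y y' J M z Δ hrep hz hmz hmb hyy hbM hMm hΔ
  obtain ⟨hy'y, hyb, hbm, _⟩ := id hrep
  have hm0 : 0 < m := by omega
  have hmR : (0 : ℝ) < m := by exact_mod_cast hm0
  have hΔ0 : 0 ≤ Δ := by rw [hΔ]; positivity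
  set G : Finset ℕ := (big 1 J M z).image (fun k => 6 * k + 1) ∪
    (big 5 J M z).image (fun k => 6 * k + 5) with hG
  have hi1 : Function.Injective (fun k : ℕ => 6 * k + 1) := fun x y h => by
    simp only at h; omega
  have hi5 : Function.Injective (fun k : ℕ => 6 * k + 5) := fun x y h => by
    simp only at h; omega
  have hGc : (G.card : ℝ) = ((big 1 J M z).card : ℝ) + ((big 5 J M z).card : ℝ) := by
    rw [hG, Finset.card_union_of_disjoint, Finset.card_image_of_injective _ hi1,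
      Finset.card_image_of_injective _ hi5]
    · push_cast; ring
    · rw [Finset.disjoint_left]
      intro x hx hx'
      rw [Finset.mem_image] at hx hx'
      obtain ⟨k, _, hk⟩ := hx
      obtain ⟨k', _, hk'⟩ := hx'
      omega
  have hmem : ∀ g ∈ G, 6 * M < g ∧ g ≤ 6 * M + 6 * J + 5 ∧ g.Coprime 6 ∧
      ∃ q : ℕ, q.Prime ∧ z < q ∧ q ∣ g := by
    intro g hg
    rw [hG, Finset.mem_union, Finset.mem_image, Finset.mem_image] at hg
    rcases hg with ⟨k, hk, rfl⟩ | ⟨k, hk, rfl⟩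
    · unfold big at hk
      rw [Finset.mem_filter, Finset.mem_Ioc] at hk
      refine ⟨by omega, by omega, ?_, hk.2⟩
      rw [Nat.coprime_iff_gcd_eq_one, Nat.gcd_comm, Nat.gcd_rec, show (6 * k + 1) % 6 = 1 by omega]
      norm_num
    · unfold big at hk
      rw [Finset.mem_filter, Finset.mem_Ioc] at hk
      refine ⟨by omega, by omega, ?_, hk.2⟩
      rw [Nat.coprime_iff_gcd_eq_one, Nat.gcd_comm, Nat.gcd_rec, show (6 * k + 5) % 6 = 5 by omega]
      norm_num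
  have hφ : ∀ g : ℕ, ∃ φ : ℚ, g ∈ G → (0 < φ ∧ φ < 1 ∧ φ.den ∣ g ∧ (φ.den : ℝ) * z ≤ m ∧
      (y' : ℚ) < φ * g ∧ φ * g ≤ y) := by
    intro g
    by_cases hg : g ∈ G
    · obtain ⟨h1, h2, _, q, hq, hzq, hqg⟩ := hmem g hg
      obtain ⟨φ, hφ⟩ := hr m b y y' z hrep hz hmz hmb hyy g q (by omega) (by omega) hq hzq hqg
      exact ⟨φ, fun _ => hφ⟩
    · exact ⟨0, fun h => absurd h hg⟩
  choose φ hφ using hφ
  have hK : ((⌊(m : ℝ) / z⌋₊ : ℕ) : ℝ) ≤ (m : ℝ) / z := Nat.floor_le (by positivity)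
  have hone : ∀ g ∈ G, ∀ g' ∈ G, ((φ g : ℚ) : ℝ) - ((φ g' : ℚ) : ℝ) ≤ Δ := by
    intro g hg g' hg'
    obtain ⟨h1, h2, h3, h4, h5, h6⟩ := hφ g hg
    obtain ⟨h1', h2', h3', h4', h5', h6'⟩ := hφ g' hg'
    obtain ⟨hg1, hg2, _, _⟩ := hmem g hg
    obtain ⟨hg1', hg2', _, _⟩ := hmem g' hg'
    have hb0 : 0 < b := by
      rcases Nat.eq_zero_or_pos b with h | h
      · exfalso
        have hy0 : y = 0 := by omega
        rw [hy0] at h6
        have h7 : 0 < φ g * (g : ℚ) := mul_pos h1 (by exact_mod_cast (by omega : 0 < g))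
        simp at h6
        linarith
      · exact h
    have hbR : (0 : ℝ) < b := by exact_mod_cast hb0
    have e1 : (0 : ℝ) < (φ g : ℝ) := by exact_mod_cast h1
    have e1' : (0 : ℝ) < (φ g' : ℝ) := by exact_mod_cast h1'
    have e6 : (φ g : ℝ) * (g : ℝ) ≤ (y : ℝ) := by exact_mod_cast h6
    have e5' : (y' : ℝ) < (φ g' : ℝ) * (g' : ℝ) := by exact_mod_cast h5'
    have eg : (b : ℝ) ≤ (g : ℝ) := by exact_mod_cast (by omega : b ≤ g)
    have eg' : (g' : ℝ) ≤ (m : ℝ) := by exact_mod_cast (by omega : g' ≤ m)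
    have f1 : (φ g : ℝ) * (b : ℝ) ≤ y := le_trans (mul_le_mul_of_nonneg_left eg e1.le) e6
    have f2 : (y' : ℝ) ≤ (φ g' : ℝ) * (m : ℝ) :=
      le_trans e5'.le (mul_le_mul_of_nonneg_left eg' e1'.le)
    have hsub1 : ((m - b : ℕ) : ℝ) = (m : ℝ) - b := Nat.cast_sub hbm.le
    have hsub2 : ((y - y' : ℕ) : ℝ) = (y : ℝ) - y' := Nat.cast_sub hy'y
    rw [hΔ, hsub1, hsub2, le_div_iff₀ hmR]
    have hybR : (y : ℝ) ≤ b := by exact_mod_cast hyb
    have hbmR : (b : ℝ) ≤ m := by exact_mod_cast hbm.le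
    have f3 : (b : ℝ) * (((φ g : ℝ) - φ g') * m) ≤ b * ((m : ℝ) - b + (y - y')) := by
      have g1 : (m : ℝ) * ((φ g : ℝ) * (b : ℝ)) ≤ m * y := mul_le_mul_of_nonneg_left f1 hmR.le
      have g2 : (b : ℝ) * y' ≤ b * ((φ g' : ℝ) * (m : ℝ)) := mul_le_mul_of_nonneg_left f2 hbR.le
      have g3 : 0 ≤ ((b : ℝ) - y) * ((m : ℝ) - b) :=
        mul_nonneg (by linarith) (by linarith)
      nlinarith
    exact le_of_mul_le_mul_left f3 hbR
  obtain ⟨v₀, hv2, hA, hB⟩ := hf G φ (6 * M) (6 * J + 6) ⌊(m : ℝ) / z⌋₊ Δ hΔ0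
    (by
      intro g hg
      obtain ⟨h1, h2, h3, h4, h5, h6⟩ := hφ g hg
      obtain ⟨hg1, hg2, _, _⟩ := hmem g hg
      refine ⟨hg1, by omega, h1, h2, h3, ?_⟩
      apply Nat.le_floor
      rw [le_div_iff₀ hz]
      exact h4)
    (by
      intro g hg g' hg'
      rw [abs_le]
      have h1 := hone g hg g' hg'
      have h2 := hone g' hg' g hg
      constructor <;> linarith)
  have hK2 : ((⌊(m : ℝ) / z⌋₊ : ℕ) : ℝ) ^ 2 * Δ ≤ ((m : ℝ) / z) ^ 2 * Δ := by
    apply mul_le_mul_of_nonneg_right _ hΔ0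
    exact pow_le_pow_left₀ (Nat.cast_nonneg _) hK 2
  have key : ((G.filter (fun g => v₀ ∣ g)).card : ℝ) ≤ 2 * ((J : ℝ) / 5 + 1) := by
    by_cases hc : v₀.Coprime 6
    · have hv5 : 5 ≤ v₀ := by
        by_contra hlt
        have : v₀ = 2 ∨ v₀ = 3 ∨ v₀ = 4 := by omega
        rcases this with h | h | h <;> (rw [h] at hc; revert hc; decide)
      have hsub : G.filter (fun g => v₀ ∣ g) ⊆
          ((Ioc M (M + J)).filter (fun k => v₀ ∣ 6 * k + 1)).image (fun k => 6 * k + 1) ∪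
          ((Ioc M (M + J)).filter (fun k => v₀ ∣ 6 * k + 5)).image (fun k => 6 * k + 5) := by
        intro g hg
        rw [Finset.mem_filter, hG, Finset.mem_union, Finset.mem_image, Finset.mem_image] at hg
        rw [Finset.mem_union, Finset.mem_image, Finset.mem_image]
        obtain ⟨hg, hvg⟩ := hg
        rcases hg with ⟨k, hk, rfl⟩ | ⟨k, hk, rfl⟩
        · left
          refine ⟨k, ?_, rfl⟩
          unfold big at hk
          rw [Finset.mem_filter] at hk ⊢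
          exact ⟨hk.1, hvg⟩
        · right
          refine ⟨k, ?_, rfl⟩
          unfold big at hk
          rw [Finset.mem_filter] at hk ⊢
          exact ⟨hk.1, hvg⟩
      have h1 := (Finset.card_le_card hsub).trans (Finset.card_union_le _ _)
      have h2 := h1.trans (add_le_add Finset.card_image_le Finset.card_image_le)
      have h3 : ((G.filter (fun g => v₀ ∣ g)).card : ℝ) ≤
          (((Ioc M (M + J)).filter (fun k => v₀ ∣ 6 * k + 1)).card : ℝ) +
          (((Ioc M (M + J)).filter (fun k => v₀ ∣ 6 * k + 5)).card : ℝ) := by exact_mod_cast h2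
      have h4 := cnt_le v₀ 1 J M hv5 hc
      have h5 := cnt_le v₀ 5 J M hv5 hc
      linarith
    · have h1 : G.filter (fun g => v₀ ∣ g) = ∅ := by
        rw [Finset.filter_eq_empty_iff]
        intro g hg hvg
        exact hc (Nat.Coprime.coprime_dvd_left hvg (hmem g hg).2.2.1)
      rw [h1]
      simp
      positivity
  have hsplit : (G.card : ℝ) = ((G.filter (fun g => v₀ ∣ g)).card : ℝ) +
      ((G.filter (fun g => ¬ v₀ ∣ g)).card : ℝ) := by
    exact_mod_cast (Finset.card_filter_add_card_filter_not (s := G) (fun g => v₀ ∣ g)).symm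
  rw [← hGc]
  constructor
  · rw [hsplit]
    have h1 : (((⌊(m : ℝ) / z⌋₊ : ℕ) : ℝ) ^ 2 * Δ + 1) * (((6 * J + 6 : ℕ) : ℝ) * Real.sqrt Δ + 1) ≤
        (((m : ℝ) / z) ^ 2 * Δ + 1) * ((6 * (J : ℝ) + 6) * Real.sqrt Δ + 1) := by
      have h2 : (((6 * J + 6 : ℕ) : ℝ)) = 6 * (J : ℝ) + 6 := by push_cast; ring
      rw [h2]
      apply mul_le_mul_of_nonneg_right _ (by positivity)
      linarith
    linarith
  · intro hlt
    have h1 := hB (lt_of_le_of_lt hK2 hlt)
    have h2 : G.filter (fun g => v₀ ∣ g) = G := Finset.filter_true_of_mem h1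
    rw [h2] at key
    exact key

end Pool.Agent.Y235.SF
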